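import Pool.Agent.H23.EH.E1
import Pool.Agent.H15.EH.Q
import Pool.Agent.H56.EH.NV

/-!
# EHP (S06849): definitions of the energy part, form FF

Coordinates `x = (l, φ)`, `z = ex x = e^{l + i φ}`, `rho l = e^l / 4`. `Q z = ∏ (z - a j)`, `gQ = (1/n) log⁺ |Q|`, `gV` = Green function
of `[0,4]`, `yQ, yV` the same in coordinates. Test function `F l g` (exact `F_A` or `F_B` on `g > 0`), profile `Bp η`,
`FF l t = F l (Bp η t)`; its partial derivatives have names. `H`, `Psi`, `q` of `Pool.Agent.H15.EH` are used with base `e = η`.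
-/

set_option autoImplicit false

open MeasureTheory Set Filter Topology
open scoped Real

noncomputable section

namespace Pool.Agent.H24.EH

open Pool.Agent.H23.EH (d1 d2 gp)
open Pool.Agent.H15.EH (FData)
open Pool.Agent.H56.EH (Nv Nz)

/-! ## coordinates and level functions -/

/-- log-polar coordinates -/
def ex (x : ℝ × ℝ) : ℂ := Complex.exp (x.1 + x.2 * Complex.I)

/-- `(1/n) log⁺ |Q|` -/
def gQ {n : ℕ} (a : Fin n → ℂ) (z : ℂ) : ℝ := (1 / n) * Real.posLog ‖∏ j, (z - a j)‖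

/-- Green function of `[0,4]` -/
def gV (z : ℂ) : ℝ := Real.arcosh ((‖z‖ + ‖z - 4‖) / 4)

def yQ {n : ℕ} (a : Fin n → ℂ) (x : ℝ × ℝ) : ℝ := gQ a (ex x)

def yV (x : ℝ × ℝ) : ℝ := gV (ex x)

def rho (l : ℝ) : ℝ := Real.exp l / 4

/-- maximum of `gV` on `|z| = e^l` -/
def Mx (l : ℝ) : ℝ := Real.arcosh (2 * rho l + 1)

/-- minimum of `gV` on `|z| = e^l` -/
def mn (l : ℝ) : ℝ := Real.arcosh (max 1 (2 * rho l - 1))

/-- what is needed of a level function (`yQ a`, `yV`) -/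
structure YData (y : ℝ × ℝ → ℝ) : Prop where
  cont : Continuous y
  nonneg : ∀ x, 0 ≤ y x
  per : ∀ l φ, y (l, φ + 2 * π) = y (l, φ)
  smooth : ∀ x, 0 < y x → ContDiffAt ℝ 3 y x
  harm : ∀ x, 0 < y x → d1 (d1 y) x + d2 (d2 y) x = 0

/-- layer integral over the circle -/
def J (y : ℝ × ℝ → ℝ) (l t : ℝ) : ℝ := ∫ φ in (0 : ℝ)..2 * π, max (y (l, φ) - t) 0

/-- layer defect, `≥ 0` by step 1 -/
def Dd {n : ℕ} (a : Fin n → ℂ) (l t : ℝ) : ℝ := J yV l t - J (yQ a) l t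

/-- the touching situation (after `last_level` and rescaling); `p = r₀ / 4` -/
structure Touch {n : ℕ} (a : Fin n → ℂ) (p : ℝ) : Prop where
  hn : 0 < n
  p0 : 0 < p
  p1 : p < 1
  le : ∀ r, 0 < r → Nz a r ≤ Nv r
  eq : Nz a (4 * p) = Nv (4 * p)
  a4 : ∀ j, ‖a j‖ < 4
  a0 : ∏ j, ‖a j‖ < 1

/-! ## the profile -/

def chi (x : ℝ) : ℝ := if x ≤ -1 then 0 else if x ≤ 1 then (x + 1) ^ 3 * (3 - x) / 16 else x

def chi' (x : ℝ) : ℝ := if x ≤ -1 then 0 else if x ≤ 1 then (x + 1) ^ 2 * (2 - x) / 4 else 1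

def chi'' (x : ℝ) : ℝ := if x ≤ -1 then 0 else if x ≤ 1 then 3 / 4 * (1 - x ^ 2) else 0

/-- `Bp η t = 2η` for `t ≤ η`, `= t` for `t ≥ 3η` -/
def Bp (η t : ℝ) : ℝ := 2 * η + η * chi ((t - 2 * η) / η)

def B1 (η t : ℝ) : ℝ := chi' ((t - 2 * η) / η)

def B2 (η t : ℝ) : ℝ := chi'' ((t - 2 * η) / η) / η

/-! ## the truncated test function and its named derivatives -/

section FF

variable (F Fl Fg Fll Flg Fgg Fllg : ℝ → ℝ → ℝ) (η : ℝ)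

def FF (l t : ℝ) : ℝ := F l (Bp η t)
def FFl (l t : ℝ) : ℝ := Fl l (Bp η t)
def FFg (l t : ℝ) : ℝ := Fg l (Bp η t) * B1 η t
def FFll (l t : ℝ) : ℝ := Fll l (Bp η t)
def FFlg (l t : ℝ) : ℝ := Flg l (Bp η t) * B1 η t
def FFgg (l t : ℝ) : ℝ := Fgg l (Bp η t) * B1 η t ^ 2 + Fg l (Bp η t) * B2 η t
def FFllg (l t : ℝ) : ℝ := Fllg l (Bp η t) * B1 η t

/-- `H l t = ∫_η^t FFg²` -/
def Hf (l t : ℝ) : ℝ := Pool.Agent.H15.EH.H (FFg Fg η) η l t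

/-- `Psi` of `FF` with base `η` -/
def Pf (l t : ℝ) : ℝ := Pool.Agent.H15.EH.Psi (FFl Fl η) (FFg Fg η) (FFlg Flg η) η l t

/-- `q` of `FF` with base `η` -/
def qf (l t : ℝ) : ℝ :=
  Pool.Agent.H15.EH.q (FFl Fl η) (FFg Fg η) (FFll Fll η) (FFlg Flg η) (FFgg Fg Fgg η) η l t

/-- `(1/2) q_tt` -/
def wf (l t : ℝ) : ℝ := FFlg Flg η l t ^ 2 - FFll Fll η l t * FFgg Fg Fgg η l t

/-- boundary term on the circle `|z| = e^l` -/
def Th (y : ℝ × ℝ → ℝ) (l : ℝ) : ℝ :=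
  ∫ φ in (0 : ℝ)..2 * π, (Hf Fg η l (y (l, φ)) * d1 y (l, φ) + Pf Fl Fg Flg η l (y (l, φ)))

/-- energy of `Φ (l, y (l, φ))` on `[l₁, l₂] × [0, 2π]` -/
def En (Φ : ℝ → ℝ → ℝ) (y : ℝ × ℝ → ℝ) (l₁ l₂ : ℝ) : ℝ :=
  ∫ l in l₁..l₂, ∫ φ in (0 : ℝ)..2 * π,
    (d1 (fun x => Φ x.1 (y x)) (l, φ) ^ 2 + d2 (fun x => Φ x.1 (y x)) (l, φ) ^ 2)

end FF

/-! ## what is needed of the test function -/

/-- hypotheses on `F` (without the model energy and the behaviour on the part) -/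
structure FHyp (p c : ℝ) (F Fl Fg Fll Flg Fgg Fllg : ℝ → ℝ → ℝ) : Prop where
  data : FData F Fl Fg Fll Flg Fgg Fllg
  /-- sign in the range -/
  sign : ∀ l g, 0 < g → |Real.cosh g - 2 * rho l| ≤ 1 → 0 ≤ Flg l g ^ 2 - Fll l g * Fgg l g
  /-- the error bound near the singular point -/
  err : ∃ K, ∀ l g, rho l ≤ Real.cosh g → 0 < g → g ≤ 1 →
    |Fll l g * Fg l g| ≤ K * rho l * g / (|rho l - p| + g) ^ 3
  /-- bounds in the range for large `l` -/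
  right : ∃ K, ∀ l g, Real.log 8 ≤ l → 0 < g → |Real.cosh g - 2 * rho l| ≤ 1 →
    |Fl l g| ≤ K ∧ |Fg l g| ≤ K ∧ |Flg l g| ≤ K ∧ |Fgg l g| ≤ K ∧ |F l g - l - c| ≤ K * Real.exp (-l)
  /-- bounds for `l → -∞` -/
  left : ∃ K, ∀ l g, rho l ≤ p / 2 → 0 < g → g ≤ 1 →
    |Fl l g| ≤ K * rho l ∧ |Fg l g| ≤ K ∧ |Flg l g| ≤ K * rho l

/-- the model energy, `c = -log p` for `F_A`, `c = -log (1-p)` for `F_B` -/
def ModelEnergy (c : ℝ) (F : ℝ → ℝ → ℝ) : Prop :=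
  ∃ K, ∀ l₂, Real.log 8 ≤ l₂ → ∀ ε, 0 < ε → ∃ η₀, 0 < η₀ ∧ ∀ η, 0 < η → η ≤ η₀ → ∀ l₁, l₁ ≤ l₂ →
    En (FF F η) yV l₁ l₂ ≤ 2 * π * (l₂ + c + ε) + K * Real.exp (-l₂)

/-! ## the test function on the plane -/

/-- `|grad u|²` -/
def gsq (u : ℂ → ℝ) (z : ℂ) : ℝ := fderiv ℝ u z 1 ^ 2 + fderiv ℝ u z Complex.I ^ 2

/-- `F l g = Ft (e^l) g` with `Ft (·, g)` Lipschitz up to `r = 0`: `F` is a function on the plane near `z = 0` -/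
def PolarLip (F : ℝ → ℝ → ℝ) : Prop :=
  ∃ Ft : ℝ → ℝ → ℝ, (∀ l g, F l g = Ft (Real.exp l) g) ∧
    ∀ g, 0 < g → ∀ R, 0 < R → ∃ K : NNReal, LipschitzOnWith K (fun r => Ft r g) (Icc 0 R)

/-- `F` and `F_l` are `O(g)` on `P` -/
def SmallOn (P : ℝ → Prop) (F Fl : ℝ → ℝ → ℝ) : Prop :=
  ∃ K, ∀ l g, P l → 0 < g → g ≤ 1 → |F l g| ≤ K * g ∧ |Fl l g| ≤ K * rho l * g

end Pool.Agent.H24.EH
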