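import Pool.Agent.H24.EH.Glue
import Pool.Agent.H44.EH.Sca3

/-!
# EHP (S06849): from the energy output EN and the capacity side to `LevelD`
-/

set_option autoImplicit false

open MeasureTheory Set Filter Topology
open scoped Real

noncomputable section

namespace Pool.Agent.H24.EH

open Pool.Agent.H23.EH (d1 d2 gp)
open Pool.Agent.H15.EH (FData)
open Pool.Agent.H56.EH (Nv Nz)
open Pool.Agent.H44.EH (TD LevelD)

/-- a test function with everything that is needed, for the parts of type `P` -/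
structure Good (p c : ℝ) (P : ℝ → ℝ → Prop) (F Fl Fg Fll Flg Fgg Fllg : ℝ → ℝ → ℝ) : Prop where
  hyp : FHyp p c F Fl Fg Fll Flg Fgg Fllg
  model : ModelEnergy c F
  lip : PolarLip F
  small : ∀ δ, 0 < δ → SmallOn (P δ) F Fl

/-- the handover form of the energy part to the capacity part -/
def Handover (A : Set ℂ) (γ : ℝ) : Prop :=
  ∀ ε, 0 < ε → ∀ R₁ : ℝ, ∃ (R : ℝ) (K : NNReal) (u : ℂ → ℝ), R₁ ≤ R ∧
    LipschitzOnWith K u (Metric.closedBall 0 R) ∧ (∀ z, ‖z‖ = R → Real.log R + γ - ε ≤ u z) ∧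
    IntegrableOn (gsq u) (Metric.ball 0 R) ∧
    (∫ z in Metric.ball (0 : ℂ) R, gsq u z) ≤ 2 * π * (Real.log R + γ + ε) ∧ ∀ z ∈ A, u z ≤ ε

/-- statement EN -/
def ENStat : Prop :=
  ∀ {n : ℕ} {a : Fin n → ℂ} {p c : ℝ} (_ : Touch a p)
    {F Fl Fg Fll Flg Fgg Fllg : ℝ → ℝ → ℝ} (_ : FHyp p c F Fl Fg Fll Flg Fgg Fllg)
    (_ : EnergyCoord a c F) (_ : PolarLip F) (S : Set ℂ)
    (_ : (∀ z ∈ S, ‖z‖ < 4 * p) ∧ (∀ δ, 0 < δ → SmallOn (fun l => rho l ≤ p - δ) F Fl) ∨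
      (∀ z ∈ S, 4 * p < ‖z‖) ∧
        (∀ δ, 0 < δ → SmallOn (fun l => p + δ ≤ rho l ∧ rho l ≤ 1) F Fl))
    (ε d : ℝ) (_ : 0 < ε) (_ : 0 < d),
    ∃ R₀, 0 < R₀ ∧ ∀ R, R₀ ≤ R → ∃ (u : ℂ → ℝ) (K : NNReal),
      LipschitzOnWith K u (Metric.closedBall 0 R) ∧
      (∀ z, ‖z‖ = R → Real.log R + c - ε ≤ u z) ∧
      IntegrableOn (gsq u) (Metric.ball 0 R) ∧
      (∫ z in Metric.ball (0 : ℂ) R, gsq u z) ≤ 2 * π * (Real.log R + c + ε) ∧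
      ∀ z ∈ S, ‖∏ j, (z - a j)‖ ≤ Real.exp (-(n * d)) → |u z| ≤ ε ∧ ‖fderiv ℝ u z‖ ≤ ε

/-- EN gives the handover form on the part of `{|Q| ≤ e^{-nd}}` in `S` -/
theorem handover_of_EN (hEN : ENStat) {n : ℕ} {a : Fin n → ℂ} {p c : ℝ} (hT : Touch a p)
    {F Fl Fg Fll Flg Fgg Fllg : ℝ → ℝ → ℝ} (hF : FHyp p c F Fl Fg Fll Flg Fgg Fllg)
    (hE : EnergyCoord a c F) (hP : PolarLip F) (S : Set ℂ)
    (hS : (∀ z ∈ S, ‖z‖ < 4 * p) ∧ (∀ δ, 0 < δ → SmallOn (fun l => rho l ≤ p - δ) F Fl) ∨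
      (∀ z ∈ S, 4 * p < ‖z‖) ∧
        (∀ δ, 0 < δ → SmallOn (fun l => p + δ ≤ rho l ∧ rho l ≤ 1) F Fl))
    {d : ℝ} (hd : 0 < d) :
    Handover ({z | ‖∏ j, (z - a j)‖ ≤ Real.exp (-(n * d))} ∩ S) c := by
  intro ε hε R₁
  obtain ⟨R₀, hR₀, h⟩ := hEN hT hF hE hP S hS ε d hε hd
  obtain ⟨u, K, h1, h2, h3, h4, h5⟩ := h (max R₀ R₁) (le_max_left _ _)
  exact ⟨max R₀ R₁, K, u, le_max_right _ _, h1, h2, h3, h4, fun z hz =>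
    (abs_le.1 (h5 z hz.2 hz.1).1).2⟩

/-- `LevelD` from the blocks -/
theorem levelD_of (hEN : ENStat)
    (hTD : ∀ (A : Set ℂ) (γ : ℝ), Bornology.IsBounded A → Handover A γ → TD A (Real.exp (-γ)))
    (hco : ∀ {n : ℕ} {a : Fin n → ℂ} {p c : ℝ} (_ : Touch a p)
      {F Fl Fg Fll Flg Fgg Fllg : ℝ → ℝ → ℝ} (_ : FHyp p c F Fl Fg Fll Flg Fgg Fllg)
      (_ : ModelEnergy c F), EnergyCoord a c F)
    (hA : ∀ p : ℝ, 0 < p → p < 1 → ∃ F Fl Fg Fll Flg Fgg Fllg : ℝ → ℝ → ℝ,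
      Good p (-Real.log p) (fun δ l => rho l ≤ p - δ) F Fl Fg Fll Flg Fgg Fllg)
    (hB : ∀ p : ℝ, 0 < p → p < 1 → ∃ F Fl Fg Fll Flg Fgg Fllg : ℝ → ℝ → ℝ,
      Good p (-Real.log (1 - p)) (fun δ l => p + δ ≤ rho l ∧ rho l ≤ 1) F Fl Fg Fll Flg Fgg Fllg)
    (hfar : ∀ {n : ℕ} {a : Fin n → ℂ} {p : ℝ} (_ : Touch a p) {d : ℝ} (_ : 0 < d),
      ∃ δ, 0 < δ ∧ ∀ z : ℂ, ‖∏ j, (z - a j)‖ ≤ Real.exp (-(n * d)) →
        ‖z‖ / 4 ≤ p - δ ∨ (p + δ ≤ ‖z‖ / 4 ∧ ‖z‖ / 4 ≤ 1)) : LevelD := by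
  intro n a p hT d hd
  have hbd : Bornology.IsBounded {z : ℂ | ‖∏ j, (z - a j)‖ ≤ Real.exp (-(n * d))} := by
    obtain ⟨δ, hδ, h⟩ := hfar hT hd
    refine (Metric.isBounded_closedBall (x := (0 : ℂ)) (r := 4)).subset fun z hz => ?_
    rw [mem_closedBall_zero_iff]
    rcases h z hz with h1 | ⟨_, h1⟩
    · have := hT.p1
      linarith
    · linarith
  constructor
  · obtain ⟨F, Fl, Fg, Fll, Flg, Fgg, Fllg, hG⟩ := hA p hT.p0 hT.p1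
    have h := handover_of_EN hEN hT hG.hyp (hco hT hG.hyp hG.model) hG.lip {z | ‖z‖ < 4 * p}
      (Or.inl ⟨fun z hz => hz, hG.small⟩) hd
    have h2 := hTD _ _ (hbd.subset inter_subset_left) h
    rwa [neg_neg, Real.exp_log hT.p0] at h2
  · obtain ⟨F, Fl, Fg, Fll, Flg, Fgg, Fllg, hG⟩ := hB p hT.p0 hT.p1
    have h := handover_of_EN hEN hT hG.hyp (hco hT hG.hyp hG.model) hG.lip {z | 4 * p < ‖z‖}
      (Or.inr ⟨fun z hz => hz, hG.small⟩) hd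
    have h2 := hTD _ _ (hbd.subset inter_subset_left) h
    rwa [neg_neg, Real.exp_log (by linarith [hT.p1])] at h2

end Pool.Agent.H24.EH
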