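import Pool.Agent.H24.EH.Glue
import Pool.Agent.H15.EH.A24
import Pool.Agent.H49.EH.YV
import Pool.Agent.H64.EH.YQ
import Pool.Agent.H9.EH.A4
import Pool.Agent.H93.EH.Yb
import Pool.Agent.H90.EH.Compare
import Pool.Agent.H36.EH.Left

/-!
# EHP (S06849): the energy estimate in coordinates, all blocks except the right end plugged in
-/

set_option autoImplicit false

open MeasureTheory Set Filter Topology
open scoped Real

noncomputable section

namespace Pool.Agent.H24.EH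

open Pool.Agent.H15.EH (FData)

theorem identity' : Identity := fun h _ hy _ hη _ _ hl => Pool.Agent.H15.EH.identity h hy hη hl

theorem yQ_data' {n : ℕ} (hn : 0 < n) (a : Fin n → ℂ) : YData (yQ a) :=
  Pool.Agent.H64.EHY.yQ_data hn a

theorem yV_data' : YData yV := Pool.Agent.H49.EH.yV_data

theorem compare' {n : ℕ} {a : Fin n → ℂ} {p c : ℝ} (hT : Touch a p)
    {F Fl Fg Fll Flg Fgg Fllg : ℝ → ℝ → ℝ} (hF : FHyp p c F Fl Fg Fll Flg Fgg Fllg) :
    Compare a Fl Fg Fll Flg Fgg := fun l₁ l₂ hl ε hε =>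
  Pool.Agent.H90.EH.compare_of hT hF (yQ_data' hT.hn a) yV_data'
    (fun l t ht => Pool.Agent.H9.EH.Dd_nonneg hT l t ht)
    (fun l φ => Pool.Agent.H9.EH.yQ_le hT l φ)
    (fun l φ => Pool.Agent.H9.EH.yV_le l φ)
    (fun l t hl ht => Pool.Agent.H9.EH.Dd_zero hT l t hl ht)
    (fun l₁ => Pool.Agent.H93.EH.Dd_bound hT l₁) l₁ l₂ hl ε hε

theorem left_Q' {n : ℕ} {a : Fin n → ℂ} {p : ℝ} (hT : Touch a p)
    {F Fl Fg Fll Flg Fgg Fllg : ℝ → ℝ → ℝ} (hF : FData F Fl Fg Fll Flg Fgg Fllg) :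
    LeftQ a Fl Fg Flg := Pool.Agent.H36.EH.Left.left_Q hT hF

theorem left_V' {p c : ℝ} (hp : 0 < p) {F Fl Fg Fll Flg Fgg Fllg : ℝ → ℝ → ℝ}
    (hF : FHyp p c F Fl Fg Fll Flg Fgg Fllg) : LeftV Fl Fg Flg :=
  Pool.Agent.H36.EH.Left.left_V hp hF

/-- all blocks except the right end -/
theorem energyCoord_of_right {n : ℕ} {a : Fin n → ℂ} {p c : ℝ} (hT : Touch a p)
    {F Fl Fg Fll Flg Fgg Fllg : ℝ → ℝ → ℝ} (hF : FHyp p c F Fl Fg Fll Flg Fgg Fllg)
    (hR : RightEnd a Fl Fg Flg) (hM : ModelEnergy c F) : EnergyCoord a c F :=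
  energy_coord_of hF.data identity' (yQ_data' hT.hn a) yV_data' (compare' hT hF) hR
    (left_Q' hT hF.data) (left_V' hT.p0 hF) hM

end Pool.Agent.H24.EH
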