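import Pool.Agent.H24.EH.Defs

/-!
# EHP (S06849): glue of the energy part, with the blocks as hypotheses
-/

set_option autoImplicit false

open MeasureTheory Set Filter Topology
open scoped Real

noncomputable section

namespace Pool.Agent.H24.EH

open Pool.Agent.H23.EH (d1 d2 gp)
open Pool.Agent.H15.EH (FData)
open Pool.Agent.H56.EH (Nv Nz)

/-- statement of the identity (A) -/
def Identity : Prop :=
  ∀ {F Fl Fg Fll Flg Fgg Fllg : ℝ → ℝ → ℝ} (_ : FData F Fl Fg Fll Flg Fgg Fllg)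
    {y : ℝ × ℝ → ℝ} (_ : YData y) {η : ℝ} (_ : 0 < η) {l₁ l₂ : ℝ} (_ : l₁ ≤ l₂),
    En (FF F η) y l₁ l₂ = Th Fl Fg Flg η y l₂ - Th Fl Fg Flg η y l₁ +
      ∫ l in l₁..l₂, ∫ φ in (0 : ℝ)..2 * π, qf Fl Fg Fll Flg Fgg η l (y (l, φ))

/-- statement of the comparison (C) -/
def Compare {n : ℕ} (a : Fin n → ℂ) (Fl Fg Fll Flg Fgg : ℝ → ℝ → ℝ) : Prop :=
  ∀ l₁ l₂ : ℝ, l₁ ≤ l₂ → ∀ ε : ℝ, 0 < ε → ∃ η₀, 0 < η₀ ∧ ∀ η, 0 < η → η ≤ η₀ →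
    (∫ l in l₁..l₂, ∫ φ in (0 : ℝ)..2 * π, qf Fl Fg Fll Flg Fgg η l (yQ a (l, φ))) ≤
      (∫ l in l₁..l₂, ∫ φ in (0 : ℝ)..2 * π, qf Fl Fg Fll Flg Fgg η l (yV (l, φ))) + ε

/-- statement of the right end (D) -/
def RightEnd {n : ℕ} (a : Fin n → ℂ) (Fl Fg Flg : ℝ → ℝ → ℝ) : Prop :=
  ∃ K l₀, Real.log 8 ≤ l₀ ∧ ∀ η, 0 < η → η ≤ 1 / 3 → ∀ l, l₀ ≤ l →
      |Th Fl Fg Flg η (yQ a) l - Th Fl Fg Flg η yV l| ≤ K * Real.exp (-l)

/-- statement of the left end of `Q` (E) -/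
def LeftQ {n : ℕ} (a : Fin n → ℂ) (Fl Fg Flg : ℝ → ℝ → ℝ) : Prop :=
  ∃ l₀, (∀ l φ, l ≤ l₀ → yQ a (l, φ) = 0) ∧ ∀ η, 0 < η → ∀ l, l ≤ l₀ →
      Th Fl Fg Flg η (yQ a) l = 0

/-- statement of the left end of `V` (E) -/
def LeftV (Fl Fg Flg : ℝ → ℝ → ℝ) : Prop :=
  ∃ K l₀, ∀ η, 0 < η → η ≤ 1 / 3 → ∀ l, l ≤ l₀ →
      |Th Fl Fg Flg η yV l| ≤ K * Real.exp (l / 2)

/-- RESULT of the energy part in coordinates (statement) -/
def EnergyCoord {n : ℕ} (a : Fin n → ℂ) (c : ℝ) (F : ℝ → ℝ → ℝ) : Prop :=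
  ∀ ε : ℝ, 0 < ε → ∃ L, ∀ l₂, L ≤ l₂ → ∃ L₁, ∀ l₁, l₁ ≤ L₁ → ∃ η₀, 0 < η₀ ∧
    ∀ η, 0 < η → η ≤ η₀ → En (FF F η) (yQ a) l₁ l₂ ≤ 2 * π * (l₂ + c + ε)

/-- RESULT of the energy part in coordinates: for every `ε` there is `l₂` (large), then `l₁` (small) and `η₀` -/
theorem energy_coord_of {n : ℕ} {a : Fin n → ℂ} {c : ℝ}
    {F Fl Fg Fll Flg Fgg Fllg : ℝ → ℝ → ℝ} (hF : FData F Fl Fg Fll Flg Fgg Fllg)
    (hid : Identity) (hyQ : YData (yQ a)) (hyV : YData yV) (hC : Compare a Fl Fg Fll Flg Fgg)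
    (hR : RightEnd a Fl Fg Flg) (hLQ : LeftQ a Fl Fg Flg) (hLV : LeftV Fl Fg Flg)
    (hM : ModelEnergy c F) : EnergyCoord a c F := by
  intro ε hε
  obtain ⟨K₁, l₀, hl₀, hright⟩ := hR
  obtain ⟨K₂, l₀', hleft⟩ := hLV
  obtain ⟨l₀'', hz, hQ⟩ := hLQ
  obtain ⟨K₃, hmod⟩ := hM
  have hpi := Real.pi_pos
  -- choice of `l₂`
  have hlim : Tendsto (fun l : ℝ => (|K₁| + |K₃|) * Real.exp (-l)) atTop (𝓝 0) := by
    have h1 : Tendsto (fun l : ℝ => Real.exp (-l)) atTop (𝓝 0) :=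
      Real.tendsto_exp_neg_atTop_nhds_zero
    simpa using h1.const_mul (|K₁| + |K₃|)
  have hev := hlim.eventually (gt_mem_nhds (show (0 : ℝ) < ε by linarith))
  obtain ⟨L, hL⟩ := eventually_atTop.1 hev
  have hlim2 : Tendsto (fun l : ℝ => |K₂| * Real.exp (l / 2)) atBot (𝓝 0) := by
    have h1 : Tendsto (fun l : ℝ => Real.exp (l / 2)) atBot (𝓝 0) :=
      Real.tendsto_exp_atBot.comp (tendsto_id.atBot_div_const (by norm_num))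
    simpa using h1.const_mul (|K₂|)
  have hev2 := hlim2.eventually (gt_mem_nhds (show (0 : ℝ) < ε by linarith))
  obtain ⟨L', hL'⟩ := eventually_atBot.1 hev2
  refine ⟨max (max L l₀) (Real.log 8), fun l₂ hl₂ => ?_⟩
  have h2a : L ≤ l₂ := le_trans (le_trans (le_max_left _ _) (le_max_left _ _)) hl₂
  have h2b : l₀ ≤ l₂ := le_trans (le_trans (le_max_right _ _) (le_max_left _ _)) hl₂
  have h2c : Real.log 8 ≤ l₂ := le_trans (le_max_right _ _) hl₂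
  refine ⟨min (min L' l₀') (min l₀'' l₂), fun l₁ hl₁ => ?_⟩
  have h1a : l₁ ≤ L' := le_trans hl₁ (le_trans (min_le_left _ _) (min_le_left _ _))
  have h1b : l₁ ≤ l₀' := le_trans hl₁ (le_trans (min_le_left _ _) (min_le_right _ _))
  have h1c : l₁ ≤ l₀'' := le_trans hl₁ (le_trans (min_le_right _ _) (min_le_left _ _))
  have h1d : l₁ ≤ l₂ := le_trans hl₁ (le_trans (min_le_right _ _) (min_le_right _ _))
  obtain ⟨η₁, hη₁, hcmp⟩ := hC l₁ l₂ h1d ε hε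
  obtain ⟨η₂, hη₂, hm⟩ := hmod l₂ h2c (ε / 4) (by linarith)
  refine ⟨min (min η₁ η₂) (1 / 3), by positivity, fun η h0 hη => ?_⟩
  have e1 : η ≤ η₁ := le_trans hη (le_trans (min_le_left _ _) (min_le_left _ _))
  have e2 : η ≤ η₂ := le_trans hη (le_trans (min_le_left _ _) (min_le_right _ _))
  have e3 : η ≤ 1 / 3 := le_trans hη (min_le_right _ _)
  have i1 := hid hF hyQ h0 h1d
  have i2 := hid hF hyV h0 h1d
  have i3 := hcmp η h0 e1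
  have i4 := hm η h0 e2 l₁ h1d
  have i5 := hright η h0 e3 l₂ h2b
  have i6 := hleft η h0 e3 l₁ h1b
  have i7 := hQ η h0 l₁ h1c
  have i8 := hL l₂ h2a
  have i9 := hL' l₁ h1a
  have k1 := abs_le.1 i5
  have k2 := abs_le.1 i6
  have k3 : K₁ * Real.exp (-l₂) ≤ |K₁| * Real.exp (-l₂) :=
    mul_le_mul_of_nonneg_right (le_abs_self _) (Real.exp_pos _).le
  have k4 : K₃ * Real.exp (-l₂) ≤ |K₃| * Real.exp (-l₂) :=
    mul_le_mul_of_nonneg_right (le_abs_self _) (Real.exp_pos _).le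
  have k5 : K₂ * Real.exp (l₁ / 2) ≤ |K₂| * Real.exp (l₁ / 2) :=
    mul_le_mul_of_nonneg_right (le_abs_self _) (Real.exp_pos _).le
  have k6 : (|K₁| + |K₃|) * Real.exp (-l₂) < ε := i8
  have k7 : |K₂| * Real.exp (l₁ / 2) < ε := i9
  have k8 : 3 * ε < π * ε := mul_lt_mul_of_pos_right Real.pi_gt_three hε
  have k9 : 2 * π * (l₂ + c + ε / 4) = 2 * π * (l₂ + c) + π * ε / 2 := by ring
  have k10 : 2 * π * (l₂ + c + ε) = 2 * π * (l₂ + c) + 2 * (π * ε) := by ring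
  rw [k10]
  rw [k9] at i4
  nlinarith

end Pool.Agent.H24.EH
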