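import Pool.Agent.H24.EH.Asm
import Pool.Agent.H24.EH.Lvl
import Pool.Agent.H12.EH.FHyp
import Pool.Agent.H38.EH.MEe
import Pool.Agent.H95.EH.PL
import Pool.Agent.H31.EH.TDo
import Pool.Agent.H56.EH.TC

/-!
# EHP (S06849): everything except `right_end` and `EN`
-/

set_option autoImplicit false

open MeasureTheory Set Filter Topology Polynomial
open scoped Real
open N460a421b

noncomputable section

namespace Pool.Agent.H24.EH

open Pool.Agent.H15.EH (FData)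
open Pool.Agent.H44.EH (TD LevelD)

/-- statement of the block `right_end` -/
def RightStat : Prop :=
  ∀ {n : ℕ} {a : Fin n → ℂ} {p c : ℝ} (_ : Touch a p)
    {F Fl Fg Fll Flg Fgg Fllg : ℝ → ℝ → ℝ} (_ : FHyp p c F Fl Fg Fll Flg Fgg Fllg),
    RightEnd a Fl Fg Flg

theorem good_A {p : ℝ} (h0 : 0 < p) (h1 : p < 1) :
    Good p (-Real.log p) (fun δ l => rho l ≤ p - δ) (Pool.EH.FA p) (Pool.EH.FAl p)
      (Pool.EH.FAg p) (Pool.EH.FAll p) (Pool.EH.FAgl p) (Pool.EH.FAgg p)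
      (Pool.Agent.H97.EH.FAllg p) :=
  ⟨Pool.Agent.H12.EH.fhyp_A h0 h1, Pool.Agent.H38.EH.modelEnergy_A h0 h1,
    Pool.Agent.H95.EH.polarLip_A h0 h1, Pool.Agent.H95.EH.smallOn_A h0 h1⟩

theorem good_B {p : ℝ} (h0 : 0 < p) (h1 : p < 1) :
    Good p (-Real.log (1 - p)) (fun δ l => p + δ ≤ rho l ∧ rho l ≤ 1) (Pool.EH.FB p)
      (Pool.EH.FBl p) (Pool.EH.FBg p) (Pool.EH.FBll p) (Pool.EH.FBgl p) (Pool.EH.FBgg p)
      (Pool.Agent.H97.EH.FBllg p) :=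
  ⟨Pool.Agent.H12.EH.fhyp_B h0 h1, Pool.Agent.H38.EH.modelEnergy_B h0 h1,
    Pool.Agent.H95.EH.polarLip_B h0 h1, Pool.Agent.H95.EH.smallOn_B h0 h1⟩

theorem td_of_handover (A : Set ℂ) (γ : ℝ) (hA : Bornology.IsBounded A) (h : Handover A γ) :
    TD A (Real.exp (-γ)) := by
  obtain ⟨ρ₀, hρ⟩ := hA.exists_norm_le
  refine Pool.Agent.H31.EH.td_of_EN A ρ₀ γ hρ fun ε hε R₁ => ?_
  obtain ⟨R, K, u, h1, h2, h3, _, h5, h6⟩ := h ε hε R₁
  exact ⟨R, K, u, h1, h2, h3, h5, h6⟩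

/-- `LevelD` from `right_end` and `EN` -/
theorem levelD_of_two (hR : RightStat) (hEN : ENStat) : LevelD :=
  levelD_of hEN td_of_handover (fun hT _ _ _ _ _ _ _ hF hM => energyCoord_of_right hT hF (hR hT hF) hM)
    (fun _ h0 h1 => ⟨_, _, _, _, _, _, _, good_A h0 h1⟩)
    (fun _ h0 h1 => ⟨_, _, _, _, _, _, _, good_B h0 h1⟩)
    (fun hT _ hd => Pool.Agent.H56.EH.touch_gap hT hd)

theorem main_of_two (hR : RightStat) (hEN : ENStat) :
    ∀ (f : ℂ[X]), f.Monic → f.natDegree ≠ 0 →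
      ∃ (ι : Type), Nonempty (BoundedDiscCover {z | ‖f.eval z‖ ≤ 1} 2 ι) :=
  Pool.Agent.H44.EH.main_of_levelD (levelD_of_two hR hEN)

end Pool.Agent.H24.EH
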