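import Pool.Agent.H24.EH.Main
import Pool.Agent.H63.EH.RE
import Pool.Agent.H22.EH.EN

/-!
# EHP (S06849): the theorem
-/

set_option autoImplicit false

open MeasureTheory Set Filter Topology Polynomial
open scoped Real
open N460a421b

noncomputable section

namespace Pool.Agent.H24.EH

theorem rightStat : RightStat := fun hT _ _ _ _ _ _ _ hF => Pool.Agent.H63.EH.right_end hT hF

theorem enStat : ENStat := fun hT _ _ _ _ _ _ _ hF hE hP S hS ε d hε hd =>
  Pool.Agent.H22.EH.EN_of hT hF hE hP S hS ε d hε hd

/-- **every monic lemniscate is covered by discs of total radius 2** -/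
theorem main : ∀ (f : ℂ[X]), f.Monic → f.natDegree ≠ 0 →
    ∃ (ι : Type), Nonempty (BoundedDiscCover {z | ‖f.eval z‖ ≤ 1} 2 ι) :=
  main_of_two rightStat enStat

end Pool.Agent.H24.EH
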